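import Pool.Agent.L7h19.IK.Stm

set_option autoImplicit false

/-!
# Project IK, part LA: linear algebra over `𝔽₂` and the character sums
-/

namespace Pool.Agent.L7h65.IK

open Finset Pool.Agent.L7h19.IT Pool.Agent.L7h19.IK

/-- products of signs -/
lemma prod_sign (S : Finset ℕ) (c : ℕ → ℤ) (h : ∀ p ∈ S, c p = 1 ∨ c p = -1) :
    (∏ p ∈ S, c p = 1 ∧ ∑ p ∈ S, (if c p = 1 then (0 : ZMod 2) else 1) = 0) ∨
    (∏ p ∈ S, c p = -1 ∧ ∑ p ∈ S, (if c p = 1 then (0 : ZMod 2) else 1) = 1) := by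
  induction S using Finset.induction_on with
  | empty => left; simp
  | insert a S ha ih =>
    rw [prod_insert ha, sum_insert ha]
    have ih' := ih (fun p hp => h p (mem_insert_of_mem hp))
    rcases h a (mem_insert_self _ _) with h1 | h1 <;> rcases ih' with ⟨h2, h3⟩ | ⟨h2, h3⟩ <;>
      rw [h1, h2, h3]
    · left; simp
    · right; simp
    · right; norm_num
    · left; norm_num; decide

lemma prod_sign_iff (S : Finset ℕ) (c : ℕ → ℤ) (h : ∀ p ∈ S, c p = 1 ∨ c p = -1) :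
    ∏ p ∈ S, c p = 1 ↔ ∑ p ∈ S, (if c p = 1 then (0 : ZMod 2) else 1) = 0 := by
  rcases prod_sign S c h with ⟨h1, h2⟩ | ⟨h1, h2⟩
  · simp [h1, h2]
  · rw [h1, h2]; simp

lemma prod_pm (S : Finset ℕ) (c : ℕ → ℤ) (h : ∀ p ∈ S, c p = 1 ∨ c p = -1) :
    ∏ p ∈ S, c p = 1 ∨ ∏ p ∈ S, c p = -1 := by
  rcases prod_sign S c h with ⟨h1, _⟩ | ⟨h1, _⟩
  · exact Or.inl h1
  · exact Or.inr h1

/-- the divisors of `n` which satisfy the conditions at the primes of `m` -/
def KK (c : ℕ → ℕ → ℤ) (m n : ℕ) : Finset ℕ :=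
  n.divisors.filter (fun e => ∀ q ∈ m.primeFactors, ∏ p ∈ e.primeFactors, c p q = 1)

/-- the space of the solutions -/
def WW (c : ℕ → ℕ → ℤ) (m n : ℕ) : Submodule (ZMod 2) (↥n.primeFactors → ZMod 2) where
  carrier := {v | ∀ q ∈ m.primeFactors,
    ∑ p : ↥n.primeFactors, v p * (if c p q = 1 then (0 : ZMod 2) else 1) = 0}
  add_mem' := by
    intro a b ha hb q hq
    simp only [Pi.add_apply, add_mul, sum_add_distrib]
    rw [ha q hq, hb q hq, add_zero]
  zero_mem' := by
    intro q _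
    simp
  smul_mem' := by
    intro t a ha q hq
    simp only [Pi.smul_apply, smul_eq_mul, mul_assoc, ← mul_sum]
    rw [ha q hq, mul_zero]

/-- the vector of a divisor -/
def vec (n e : ℕ) : ↥n.primeFactors → ZMod 2 := fun p => if (p : ℕ) ∣ e then 1 else 0

lemma filter_dvd {n e : ℕ} (hn : n ≠ 0) (he : e ∣ n) :
    n.primeFactors.filter (fun p => p ∣ e) = e.primeFactors := by
  ext p
  simp only [mem_filter, Nat.mem_primeFactors]
  constructor
  · rintro ⟨⟨h1, _, _⟩, h2⟩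
    exact ⟨h1, h2, fun h => hn (by rw [h] at he; exact zero_dvd_iff.1 he)⟩
  · rintro ⟨h1, h2, _⟩
    exact ⟨⟨h1, h2.trans he, hn⟩, h2⟩

lemma vec_mem (c : ℕ → ℕ → ℤ) {m n e : ℕ} (hn : n ≠ 0) (he : e ∣ n)
    (hc : ∀ p ∈ n.primeFactors, ∀ q ∈ m.primeFactors, c p q = 1 ∨ c p q = -1) :
    vec n e ∈ WW c m n ↔ ∀ q ∈ m.primeFactors, ∏ p ∈ e.primeFactors, c p q = 1 := by
  have key : ∀ q, ∑ p : ↥n.primeFactors, vec n e p * (if c p q = 1 then (0 : ZMod 2) else 1) =
      ∑ p ∈ e.primeFactors, (if c p q = 1 then (0 : ZMod 2) else 1) := by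
    intro q
    rw [← filter_dvd hn he, sum_filter,
      ← Finset.sum_coe_sort n.primeFactors
        (fun p => if p ∣ e then (if c p q = 1 then (0 : ZMod 2) else 1) else 0)]
    refine sum_congr rfl fun p _ => ?_
    unfold vec
    split_ifs <;> simp
  have hsub : e.primeFactors ⊆ n.primeFactors := Nat.primeFactors_mono he hn
  show (∀ q ∈ m.primeFactors, _) ↔ _
  refine forall₂_congr fun q hq => ?_
  rw [key q, prod_sign_iff e.primeFactors (fun p => c p q) (fun p hp => hc p (hsub hp) q hq)]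

lemma vec_inj {n e e' : ℕ} (hn : Squarefree n) (he : e ∣ n) (he' : e' ∣ n)
    (h : vec n e = vec n e') : e = e' := by
  have h1 : e.primeFactors = e'.primeFactors := by
    rw [← filter_dvd hn.ne_zero he, ← filter_dvd hn.ne_zero he']
    refine filter_congr fun p hp => ?_
    have := congrFun h ⟨p, hp⟩
    unfold vec at this
    by_cases a : p ∣ e <;> by_cases b : p ∣ e' <;> simp [a, b] at this ⊢
  rw [← Nat.prod_primeFactors_of_squarefree (hn.squarefree_of_dvd he),
    ← Nat.prod_primeFactors_of_squarefree (hn.squarefree_of_dvd he'), h1]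

lemma vec_surj {n : ℕ} (hn : Squarefree n) (v : ↥n.primeFactors → ZMod 2) :
    ∃ e, e ∣ n ∧ vec n e = v := by
  classical
  set S : Finset ℕ := (univ.filter (fun p : ↥n.primeFactors => v p ≠ 0)).map
    (Function.Embedding.subtype _) with hS
  have hSn : S ⊆ n.primeFactors := by
    intro p hp
    simp only [hS, mem_map, mem_filter, mem_univ, true_and, Function.Embedding.coe_subtype] at hp
    obtain ⟨a, _, rfl⟩ := hp
    exact a.2
  have hSp : ∀ p ∈ S, Nat.Prime p := fun p hp => Nat.prime_of_mem_primeFactors (hSn hp)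
  refine ⟨∏ p ∈ S, p, ?_, ?_⟩
  · calc ∏ p ∈ S, p ∣ ∏ p ∈ n.primeFactors, p := prod_dvd_prod_of_subset _ _ _ hSn
      _ = n := Nat.prod_primeFactors_of_squarefree hn
  · funext p
    unfold vec
    have h0 : ∏ p ∈ S, p ≠ 0 := prod_ne_zero_iff.2 fun p hp => (hSp p hp).ne_zero
    have h1 : (p : ℕ) ∣ ∏ p ∈ S, p ↔ v p ≠ 0 := by
      have h2 : (p : ℕ) ∣ ∏ p ∈ S, p ↔ (p : ℕ) ∈ (∏ p ∈ S, p).primeFactors := by
        rw [Nat.mem_primeFactors]
        exact ⟨fun h => ⟨Nat.prime_of_mem_primeFactors p.2, h, h0⟩, fun h => h.2.1⟩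
      rw [h2, Nat.primeFactors_prod hSp, hS]
      simp only [mem_map, mem_filter, mem_univ, true_and, Function.Embedding.coe_subtype]
      constructor
      · rintro ⟨a, h3, h4⟩
        have : a = p := Subtype.ext h4
        rwa [this] at h3
      · intro h3
        exact ⟨p, h3, rfl⟩
    by_cases h3 : v p = 0
    · rw [if_neg (by rw [h1]; simpa using h3), h3]
    · rw [if_pos (h1.2 h3)]
      have : ∀ x : ZMod 2, x ≠ 0 → 1 = x := by decide
      exact this _ h3

lemma idp_iff (r n : ℕ) (e : Fin r → ℕ) :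
    Idp r n e ↔ LinearIndependent (ZMod 2) (fun i => vec n (e i)) := by
  rw [Fintype.linearIndependent_iff]
  unfold Idp
  constructor
  · intro h g hg
    by_contra hne
    push Not at hne
    obtain ⟨i, hi⟩ := hne
    obtain ⟨p, hp, h1⟩ := h g (fun h0 => hi (by rw [h0]; rfl))
    apply h1
    have := congrFun hg ⟨p, hp⟩
    simpa [vec] using this
  · intro h y hy
    by_contra hne
    push Not at hne
    apply hy
    funext i
    refine h y ?_ i
    funext p
    have := hne p p.2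
    simpa [vec] using this

/-- the bijection between the divisors and the vectors -/
noncomputable def eqv (c : ℕ → ℕ → ℤ) {m n : ℕ} (hn : Squarefree n)
    (hc : ∀ p ∈ n.primeFactors, ∀ q ∈ m.primeFactors, c p q = 1 ∨ c p q = -1) :
    ↥(KK c m n) ≃ ↥(WW c m n) :=
  Equiv.ofBijective (fun e => ⟨vec n e, (vec_mem c hn.ne_zero
      (Nat.dvd_of_mem_divisors (mem_filter.1 e.2).1) hc).2 (mem_filter.1 e.2).2⟩) <| by
    constructor
    · intro e e' h
      apply Subtype.ext
      exact vec_inj hn (Nat.dvd_of_mem_divisors (mem_filter.1 e.2).1)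
        (Nat.dvd_of_mem_divisors (mem_filter.1 e'.2).1) (congrArg Subtype.val h)
    · intro v
      obtain ⟨e, he, hv⟩ := vec_surj hn v.1
      refine ⟨⟨e, mem_filter.2 ⟨Nat.mem_divisors.2 ⟨he, hn.ne_zero⟩,
        (vec_mem c hn.ne_zero he hc).1 (by rw [hv]; exact v.2)⟩⟩, ?_⟩
      exact Subtype.ext hv

lemma card_K (c : ℕ → ℕ → ℤ) {m n : ℕ} (hn : Squarefree n)
    (hc : ∀ p ∈ n.primeFactors, ∀ q ∈ m.primeFactors, c p q = 1 ∨ c p q = -1) :
    (KK c m n).card = 2 ^ Module.finrank (ZMod 2) (WW c m n) := by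
  have h1 : Nat.card ↥(KK c m n) = (KK c m n).card := by
    rw [Nat.card_eq_fintype_card, Fintype.card_coe]
  rw [← h1, Nat.card_congr (eqv c hn hc), Module.natCard_eq_pow_finrank (K := ZMod 2),
    Nat.card_zmod]

/-- the independent tuples -/
def Ind (c : ℕ → ℕ → ℤ) (r m n : ℕ) : Finset (Fin r → ℕ) :=
  (Fintype.piFinset (fun _ : Fin r => KK c m n)).filter (Idp r n)

lemma card_Ind (c : ℕ → ℕ → ℤ) (r : ℕ) {m n : ℕ} (hn : Squarefree n)
    (hc : ∀ p ∈ n.primeFactors, ∀ q ∈ m.primeFactors, c p q = 1 ∨ c p q = -1) :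
    Nat.card {s : Fin r → ↥(WW c m n) // LinearIndependent (ZMod 2) s} = (Ind c r m n).card := by
  have h1 : Nat.card ↥(Ind c r m n) = (Ind c r m n).card := by
    rw [Nat.card_eq_fintype_card, Fintype.card_coe]
  rw [← h1]
  symm
  let e1 : ↥(Ind c r m n) ≃ {e : Fin r → ↥(KK c m n) // Idp r n (fun i => (e i : ℕ))} :=
    { toFun := fun x => ⟨fun i => ⟨x.1 i, Fintype.mem_piFinset.1 (mem_filter.1 x.2).1 i⟩,
        (mem_filter.1 x.2).2⟩
      invFun := fun e => ⟨fun i => (e.1 i : ℕ), mem_filter.2 ⟨Fintype.mem_piFinset.2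
        fun i => (e.1 i).2, e.2⟩⟩
      left_inv := fun _ => rfl
      right_inv := fun _ => rfl }
  let e2 : {e : Fin r → ↥(KK c m n) // Idp r n (fun i => (e i : ℕ))} ≃
      {s : Fin r → ↥(WW c m n) // LinearIndependent (ZMod 2) s} :=
    ((Equiv.refl (Fin r)).arrowCongr (eqv c hn hc)).subtypeEquiv fun e => by
      rw [idp_iff]
      have h2 : (fun i => vec n (e i : ℕ)) = fun i => ((eqv c hn hc (e i) : ↥(WW c m n)) :
          ↥n.primeFactors → ZMod 2) := rfl
      rw [h2]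
      exact (LinearMap.linearIndependent_iff (WW c m n).subtype
        (Submodule.ker_subtype _) (v := fun i => eqv c hn hc (e i)))
  exact Nat.card_congr (e1.trans e2)

lemma num_bound (D r I : ℕ) (hI : r ≤ D → I = ∏ i : Fin r, (2 ^ D - 2 ^ i.val)) :
    (2 ^ D) ^ r ≤ 2 ^ (r ^ 2) * (1 + I) := by
  by_cases h : r ≤ D
  · rw [hI h]
    rcases Nat.eq_zero_or_pos r with hr | hr
    · subst hr; simp
    · have h1 : (2 ^ (D - 1)) ^ r ≤ ∏ i : Fin r, (2 ^ D - 2 ^ i.val) := by
        calc (2 ^ (D - 1)) ^ r = ∏ _i : Fin r, 2 ^ (D - 1) := by simp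
          _ ≤ _ := by
            refine prod_le_prod' fun i _ => ?_
            have h2 : 2 ^ i.val ≤ 2 ^ (D - 1) := Nat.pow_le_pow_right (by norm_num) (by
              have := i.2; omega)
            have h3 : 2 ^ D = 2 ^ (D - 1) + 2 ^ (D - 1) := by
              rw [← two_mul, ← pow_succ']; congr 1; omega
            omega
      have h2 : (2 ^ D) ^ r = 2 ^ r * (2 ^ (D - 1)) ^ r := by
        rw [← mul_pow, ← pow_succ']; congr 2; omega
      rw [h2]
      refine Nat.mul_le_mul (Nat.pow_le_pow_right (by norm_num) ?_) (h1.trans (Nat.le_add_left _ _))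
      nlinarith
  · calc (2 ^ D) ^ r = 2 ^ (D * r) := by rw [← pow_mul]
      _ ≤ 2 ^ (r ^ 2) := Nat.pow_le_pow_right (by norm_num) (by rw [sq]; exact Nat.mul_le_mul_right _ (by omega))
      _ ≤ _ := Nat.le_mul_of_pos_right _ (by omega)

/-- the bound for the powers of the number of the elements -/
lemma pow_card_le (c : ℕ → ℕ → ℤ) (r : ℕ) {m n : ℕ} (hn : Squarefree n)
    (hc : ∀ p ∈ n.primeFactors, ∀ q ∈ m.primeFactors, c p q = 1 ∨ c p q = -1) :
    (KK c m n).card ^ r ≤ 2 ^ (r ^ 2) * (1 + (Ind c r m n).card) := by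
  rw [card_K c hn hc]
  apply num_bound
  intro h
  rw [← card_Ind c r hn hc, card_linearIndependent h, ZMod.card]

lemma sum_powerset {m : ℕ} (hm : Squarefree m) (g : ℕ → ℤ) :
    ∑ d ∈ m.divisors, ∏ q ∈ d.primeFactors, g q = ∏ q ∈ m.primeFactors, (1 + g q) := by
  rw [Finset.prod_one_add]
  refine Finset.sum_bij' (fun d _ => d.primeFactors) (fun S _ => ∏ p ∈ S, p) ?_ ?_ ?_ ?_ ?_
  · intro d hd
    exact mem_powerset.2 (Nat.primeFactors_mono (Nat.dvd_of_mem_divisors hd) hm.ne_zero)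
  · intro S hS
    refine Nat.mem_divisors.2 ⟨?_, hm.ne_zero⟩
    calc ∏ p ∈ S, p ∣ ∏ p ∈ m.primeFactors, p := prod_dvd_prod_of_subset _ _ _ (mem_powerset.1 hS)
      _ = m := Nat.prod_primeFactors_of_squarefree hm
  · intro d hd
    exact Nat.prod_primeFactors_of_squarefree
      (hm.squarefree_of_dvd (Nat.dvd_of_mem_divisors hd))
  · intro S hS
    exact Nat.primeFactors_prod fun p hp => Nat.prime_of_mem_primeFactors (mem_powerset.1 hS hp)
  · intro d _
    rfl

lemma sumdiv {m : ℕ} (hm : Squarefree m) (g : ℕ → ℤ)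
    (hg : ∀ q ∈ m.primeFactors, g q = 1 ∨ g q = -1) :
    ∑ d ∈ m.divisors, ∏ q ∈ d.primeFactors, g q =
      if ∀ q ∈ m.primeFactors, g q = 1 then 2 ^ m.primeFactors.card else 0 := by
  rw [sum_powerset hm g]
  split_ifs with h
  · rw [prod_congr rfl (fun q hq => by rw [h q hq]), prod_const]; norm_num
  · push Not at h
    obtain ⟨q, hq, h1⟩ := h
    refine prod_eq_zero hq ?_
    rcases hg q hq with h2 | h2
    · exact absurd h2 h1
    · rw [h2]; norm_num

/-- the double counting -/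
lemma double (c : ℕ → ℕ → ℤ) {m n : ℕ} (hm : Squarefree m) (hn : Squarefree n)
    (hc : ∀ p ∈ n.primeFactors, ∀ q ∈ m.primeFactors, c p q = 1 ∨ c p q = -1) :
    (m.divisors.filter (fun d : ℕ => ∀ p ∈ n.primeFactors, ∏ q ∈ d.primeFactors, c p q = 1)).card *
      2 ^ n.primeFactors.card = (KK c m n).card * 2 ^ m.primeFactors.card := by
  have h1 : ∑ d ∈ m.divisors, ∑ e ∈ n.divisors, ∏ p ∈ e.primeFactors, ∏ q ∈ d.primeFactors, c p q =
      (m.divisors.filter (fun d : ℕ => ∀ p ∈ n.primeFactors,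
        ∏ q ∈ d.primeFactors, c p q = 1)).card * 2 ^ n.primeFactors.card := by
    rw [card_filter, Nat.cast_sum, sum_mul]
    refine sum_congr rfl fun d hd => ?_
    have hdm : d.primeFactors ⊆ m.primeFactors :=
      Nat.primeFactors_mono (Nat.dvd_of_mem_divisors hd) hm.ne_zero
    rw [sumdiv hn (fun p => ∏ q ∈ d.primeFactors, c p q)
      (fun p hp => prod_pm _ _ fun q hq => hc p hp q (hdm hq))]
    split_ifs <;> simp
  have h2 : ∑ e ∈ n.divisors, ∑ d ∈ m.divisors, ∏ p ∈ e.primeFactors, ∏ q ∈ d.primeFactors, c p q =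
      (KK c m n).card * 2 ^ m.primeFactors.card := by
    unfold KK
    rw [card_filter, Nat.cast_sum, sum_mul]
    refine sum_congr rfl fun e he => ?_
    have hen : e.primeFactors ⊆ n.primeFactors :=
      Nat.primeFactors_mono (Nat.dvd_of_mem_divisors he) hn.ne_zero
    have h3 : ∀ d : ℕ, ∏ p ∈ e.primeFactors, ∏ q ∈ d.primeFactors, c p q =
        ∏ q ∈ d.primeFactors, ∏ p ∈ e.primeFactors, c p q := fun d => prod_comm
    simp_rw [h3]
    rw [sumdiv hm (fun q => ∏ p ∈ e.primeFactors, c p q)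
      (fun q hq => prod_pm _ _ fun p hp => hc p (hen hp) q hq)]
    split_ifs <;> simp
  rw [sum_comm] at h1
  rw [h1] at h2
  exact_mod_cast h2

/-- the sum over the tuples -/
lemma FR_eq (τ : Bool) (ε : ℕ → ℤ) (r : ℕ) {m n : ℕ} (hm : Squarefree m) (hn : Squarefree n)
    (hc : ∀ p ∈ n.primeFactors, ∀ q ∈ m.primeFactors, sy τ ε p q = 1 ∨ sy τ ε p q = -1) :
    FR τ ε r m n = (Ind (sy τ ε) r m n).card * 2 ^ (r * m.primeFactors.card) /
      2 ^ (r * n.primeFactors.card) := by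
  unfold FR
  congr 1
  have h1 : ∀ e ∈ (Fintype.piFinset (fun _ : Fin r => n.divisors)).filter (Idp r n),
      ∑ d ∈ Fintype.piFinset (fun _ : Fin r => m.divisors),
        ∏ i, ∏ p ∈ (e i).primeFactors, ∏ q ∈ (d i).primeFactors, (sy τ ε p q : ℝ) =
      ∏ i : Fin r, if (∀ q ∈ m.primeFactors, ∏ p ∈ (e i).primeFactors, sy τ ε p q = 1) then
        (2 : ℝ) ^ m.primeFactors.card else 0 := by
    intro e he
    rw [← Finset.prod_univ_sum (fun _ : Fin r => m.divisors)
      (fun i d => ∏ p ∈ (e i).primeFactors, ∏ q ∈ d.primeFactors, (sy τ ε p q : ℝ))]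
    refine prod_congr rfl fun i _ => ?_
    have hen : (e i).primeFactors ⊆ n.primeFactors :=
      Nat.primeFactors_mono (Nat.dvd_of_mem_divisors
        (Fintype.mem_piFinset.1 (mem_filter.1 he).1 i)) hn.ne_zero
    have h3 : ∑ d ∈ m.divisors, ∏ p ∈ (e i).primeFactors, ∏ q ∈ d.primeFactors, sy τ ε p q =
        if (∀ q ∈ m.primeFactors, ∏ p ∈ (e i).primeFactors, sy τ ε p q = 1) then
          2 ^ m.primeFactors.card else 0 := by
      have h4 : ∀ d : ℕ, ∏ p ∈ (e i).primeFactors, ∏ q ∈ d.primeFactors, sy τ ε p q =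
          ∏ q ∈ d.primeFactors, ∏ p ∈ (e i).primeFactors, sy τ ε p q := fun d => prod_comm
      simp_rw [h4]
      exact sumdiv hm (fun q => ∏ p ∈ (e i).primeFactors, sy τ ε p q)
        (fun q hq => prod_pm _ _ fun p hp => hc p (hen hp) q hq)
    have h5 := congrArg (Int.cast : ℤ → ℝ) h3
    push_cast at h5
    rw [h5]
  rw [sum_congr rfl h1]
  have h2 : ∀ e : Fin r → ℕ, (∏ i : Fin r, if (∀ q ∈ m.primeFactors,
      ∏ p ∈ (e i).primeFactors, sy τ ε p q = 1) then (2 : ℝ) ^ m.primeFactors.card else 0) =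
      if (∀ i, ∀ q ∈ m.primeFactors, ∏ p ∈ (e i).primeFactors, sy τ ε p q = 1) then
        (2 : ℝ) ^ (r * m.primeFactors.card) else 0 := by
    intro e
    split_ifs with h
    · rw [prod_congr rfl (fun i _ => if_pos (h i)), prod_const, card_univ, Fintype.card_fin,
        ← pow_mul, mul_comm]
    · push Not at h
      obtain ⟨i, q, hq, hi⟩ := h
      exact prod_eq_zero (mem_univ i) (if_neg fun h' => hi (h' q hq))
  rw [sum_congr rfl (fun e _ => h2 e), ← sum_filter, sum_const, nsmul_eq_mul]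
  congr 2
  unfold Ind KK
  congr 1
  ext e
  simp only [mem_filter, Fintype.mem_piFinset]
  constructor
  · rintro ⟨⟨h3, h4⟩, h5⟩
    exact ⟨fun i => ⟨h3 i, h5 i⟩, h4⟩
  · rintro ⟨h3, h4⟩
    exact ⟨⟨fun i => (h3 i).1, h4⟩, fun i => (h3 i).2⟩

lemma jac_pm {p q : ℕ} (hp : p.Prime) (hq : q.Prime) (h : q ≠ p) :
    jacobiSym (q : ℤ) p = 1 ∨ jacobiSym (q : ℤ) p = -1 := by
  apply jacobiSym.eq_one_or_neg_one
  rw [Int.gcd_natCast_natCast]
  exact (Nat.coprime_primes hq hp).2 h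

lemma lam_pm {ε : ℕ → ℤ} {p q : ℕ} (hp : p.Prime) (hq : q.Prime) (h : ε p = 1 ∨ ε p = -1) :
    lam ε p q = 1 ∨ lam ε p q = -1 := by
  unfold lam
  split_ifs with h1
  · exact h
  · exact jac_pm hp hq h1

lemma eE_pm (E : Finset ℕ) (p : ℕ) : eE E p = 1 ∨ eE E p = -1 := by
  unfold eE; split_ifs <;> simp

lemma eE'_pm (E : Finset ℕ) {p : ℕ} : eE' E p = 1 ∨ eE' E p = -1 := by
  unfold eE'
  have h1 : jacobiSym (-1) p = 1 ∨ jacobiSym (-1) p = -1 := by
    apply jacobiSym.eq_one_or_neg_one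
    simp
  rcases eE_pm E p with h | h <;> rcases h1 with h2 | h2 <;> rw [h, h2] <;> simp

lemma sy_pm (τ : Bool) {ε : ℕ → ℤ} (h : ∀ p, ε p = 1 ∨ ε p = -1) {m n : ℕ} :
    ∀ p ∈ n.primeFactors, ∀ q ∈ m.primeFactors, sy τ ε p q = 1 ∨ sy τ ε p q = -1 := by
  intro p hp q hq
  have hp' := Nat.prime_of_mem_primeFactors hp
  have hq' := Nat.prime_of_mem_primeFactors hq
  unfold sy
  split_ifs
  · exact lam_pm hp' hq' (h p)
  · exact lam_pm hq' hp' (h q)

lemma K_false (ε : ℕ → ℤ) (m n : ℕ) : (KK (sy false ε) m n).card = N3 ε n m := by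
  unfold KK N3 sy
  simp

lemma K_true (ε : ℕ → ℤ) (h : ∀ p, ε p = 1 ∨ ε p = -1) {m n : ℕ} (hm : Squarefree m)
    (hn : Squarefree n) : N3 ε m n * 2 ^ n.primeFactors.card =
      (KK (sy true ε) m n).card * 2 ^ m.primeFactors.card := by
  have h1 := double (sy true ε) hm hn (sy_pm true h)
  rw [← h1]
  rfl

lemma FR_nonneg (τ : Bool) {ε : ℕ → ℤ} (h : ∀ p, ε p = 1 ∨ ε p = -1) (r : ℕ) {m n : ℕ}
    (hm : Squarefree m) (hn : Squarefree n) : 0 ≤ FR τ ε r m n := by
  rw [FR_eq τ ε r hm hn (sy_pm τ h)]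
  positivity

lemma K_pow_le (τ : Bool) {ε : ℕ → ℤ} (h : ∀ p, ε p = 1 ∨ ε p = -1) (r : ℕ) {m n : ℕ}
    (hm : Squarefree m) (hn : Squarefree n) (hmn : n.primeFactors.card ≤ m.primeFactors.card) :
    ((KK (sy τ ε) m n).card : ℝ) ^ r ≤ 2 ^ (r ^ 2) * (1 + FR τ ε r m n) := by
  have h1 := pow_card_le (sy τ ε) r hn (sy_pm τ h (m := m))
  have h2 : ((KK (sy τ ε) m n).card : ℝ) ^ r ≤ 2 ^ (r ^ 2) * (1 + (Ind (sy τ ε) r m n).card) := by
    exact_mod_cast h1
  refine h2.trans ?_
  have h3 : ((Ind (sy τ ε) r m n).card : ℝ) ≤ FR τ ε r m n := by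
    rw [FR_eq τ ε r hm hn (sy_pm τ h), le_div_iff₀ (by positivity)]
    have : (2 : ℝ) ^ (r * n.primeFactors.card) ≤ 2 ^ (r * m.primeFactors.card) :=
      pow_le_pow_right₀ (by norm_num) (Nat.mul_le_mul_left _ hmn)
    exact mul_le_mul_of_nonneg_left this (by positivity)
  have h4 : (0 : ℝ) < 2 ^ (r ^ 2) := by positivity
  nlinarith

lemma mul_pow_le (a b : ℝ) (k : ℕ) : (a * b) ^ k ≤ a ^ (2 * k) + b ^ (2 * k) := by
  rw [mul_pow, mul_comm 2 k, pow_mul, pow_mul]
  nlinarith [sq_nonneg (a ^ k - b ^ k), sq_nonneg (a ^ k), sq_nonneg (b ^ k)]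

theorem s_LA : S_LA := by
  intro k m n E hm hn
  have a1 := FR_nonneg true (eE_pm E) (2 * k) hm hn
  have a2 := FR_nonneg false (ε := eE' E) (fun _ => eE'_pm E) (2 * k) hm hn
  have a3 := FR_nonneg true (ε := eE' E) (fun _ => eE'_pm E) (2 * k) hn hm
  have a4 := FR_nonneg false (eE_pm E) (2 * k) hn hm
  refine ⟨⟨a1, a2, a3, a4⟩, ?_⟩
  have c1 : (2 : ℝ) ^ ((2 * k) ^ 2) ≤ 4 ^ ((2 * k) ^ 2) := pow_le_pow_left₀ (by norm_num)
    (by norm_num) _
  have c2 : (4 : ℝ) ^ ((2 * k) ^ 2 + 1) = 4 * 4 ^ ((2 * k) ^ 2) := pow_succ' _ _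
  have c3 : (0 : ℝ) < 2 ^ ((2 * k) ^ 2) := by positivity
  rcases le_total n.primeFactors.card m.primeFactors.card with h | h
  · have e1 : G3 E m n = ((KK (sy true (eE E)) m n).card : ℝ) *
        (KK (sy false (eE' E)) m n).card := by
      unfold G3
      rw [K_false, abs_of_nonneg (by have : ((n.primeFactors.card : ℕ) : ℝ) ≤
        (m.primeFactors.card : ℕ) := by exact_mod_cast h
                                     linarith), ← Nat.cast_sub h, Real.rpow_natCast]
      have e2 := K_true (eE E) (eE_pm E) hm hn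
      have e3 : 2 ^ m.primeFactors.card = 2 ^ (m.primeFactors.card - n.primeFactors.card) *
          2 ^ n.primeFactors.card := by
        rw [← pow_add]; congr 1; omega
      rw [e3, ← mul_assoc] at e2
      have e4 := Nat.eq_of_mul_eq_mul_right (by positivity) e2
      rw [e4]
      push_cast
      field_simp
    rw [e1]
    refine (mul_pow_le _ _ k).trans ?_
    have b1 := K_pow_le true (eE_pm E) (2 * k) hm hn h
    have b2 := K_pow_le false (ε := eE' E) (fun _ => eE'_pm E) (2 * k) hm hn h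
    rw [c2]
    nlinarith
  · have e1 : G3 E m n = ((KK (sy false (eE E)) n m).card : ℝ) *
        (KK (sy true (eE' E)) n m).card := by
      unfold G3
      rw [K_false, abs_of_nonpos (by have : ((m.primeFactors.card : ℕ) : ℝ) ≤
        (n.primeFactors.card : ℕ) := by exact_mod_cast h
                                     linarith), neg_sub, ← Nat.cast_sub h, Real.rpow_natCast]
      have e2 := K_true (eE' E) (fun _ => eE'_pm E) hn hm
      have e3 : 2 ^ n.primeFactors.card = 2 ^ (n.primeFactors.card - m.primeFactors.card) *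
          2 ^ m.primeFactors.card := by
        rw [← pow_add]; congr 1; omega
      rw [e3, ← mul_assoc] at e2
      have e4 := Nat.eq_of_mul_eq_mul_right (by positivity) e2
      rw [e4]
      push_cast
      field_simp
    rw [e1]
    refine (mul_pow_le _ _ k).trans ?_
    have b1 := K_pow_le false (eE_pm E) (2 * k) hn hm h
    have b2 := K_pow_le true (ε := eE' E) (fun _ => eE'_pm E) (2 * k) hn hm h
    rw [c2]
    nlinarith

end Pool.Agent.L7h65.IK
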